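import Pool.Agent.Lib.MP_25ed17_al.Metab

/-!
The system u-invariant of Laurent series fields, for pairs of quadratic forms: if `-1` is a sum
of squares in `K` then `u_2(K((t))) = 2 u_2(K)`.
-/

namespace Pool.Agent.Results.MP_25ed17_al.SystemUTwo

universe u

/-- There is an anisotropic system `q` of `r` quadratic forms in `n` variables over `F` such
that, for some `m > 0`, the orthogonal sum of `m` copies of `q` vanishes on a subspace of
dimension at least half the dimension `m * n` of its domain. -/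
def HasSystem (F : Type u) [Field F] (r n : ℕ) : Prop :=
  ∃ q : QuadraticMap F (Fin n → F) (Fin r → F),
    (∀ x, q x = 0 → x = 0) ∧
    ∃ m : ℕ, 0 < m ∧
      ∃ W : Submodule F (Fin m → Fin n → F),
        m * n ≤ 2 * Module.finrank F W ∧
        ∀ x ∈ W, ∑ i, q (x i) = 0

/-- The system u-invariant `u_r(F)`. -/
noncomputable def sysU (F : Type u) [Field F] (r : ℕ) : ℕ∞ :=
  ⨆ n : {n : ℕ // HasSystem F r n}, ((n : ℕ) : ℕ∞)

theorem hasSystem_of_nonreal {F : Type u} [Field F] (hF : IsSumSq (-1 : F)) {r n : ℕ}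
    (q : QuadraticMap F (Fin n → F) (Fin r → F)) (hq : ∀ x, q x = 0 → x = 0) :
    HasSystem F r n :=
  ⟨q, hq, Lib.MP_25ed17_al.exists_metabolic hF q⟩

theorem isSumSq_map {F : Type u} [Field F] {s : F} (hs : IsSumSq s) :
    IsSumSq (HahnSeries.C s : LaurentSeries F) := by
  induction hs with
  | zero => rw [map_zero]; exact IsSumSq.zero
  | sq_add a _ ih => rw [map_add, map_mul]; exact IsSumSq.sq_add _ ih

/-- For every field `K` in which `-1` is a sum of squares, `u_2(K((t))) = 2 u_2(K)`. -/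
theorem result (K : Type u) [Field K] (hK : IsSumSq (-1 : K)) :
    sysU (LaurentSeries K) 2 = 2 * sysU K 2 := by
  have hL : IsSumSq (-1 : LaurentSeries K) := by
    have := isSumSq_map hK
    rwa [map_neg, map_one] at this
  apply le_antisymm
  · refine iSup_le fun n => ?_
    obtain ⟨n, q, hq, -⟩ := n
    obtain ⟨n', hn, q', hq'⟩ := Lib.MP_25ed17_al.kSys_main q hq
    calc ((n : ℕ) : ℕ∞) ≤ ((2 * n' : ℕ) : ℕ∞) := by exact_mod_cast hn
      _ = 2 * (n' : ℕ∞) := by push_cast; rfl
      _ ≤ 2 * sysU K 2 := by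
        gcongr
        exact le_iSup (fun n : {n : ℕ // HasSystem K 2 n} => ((n : ℕ) : ℕ∞))
          ⟨n', hasSystem_of_nonreal hK q' hq'⟩
  · rw [sysU, ENat.mul_iSup]
    refine iSup_le fun n => ?_
    obtain ⟨n, q, hq, -⟩ := n
    obtain ⟨Q, hQ⟩ := Lib.MP_25ed17_al.exists_double q hq
    have h := le_iSup (fun n : {n : ℕ // HasSystem (LaurentSeries K) 2 n} => ((n : ℕ) : ℕ∞))
      ⟨2 * n, hasSystem_of_nonreal hL Q hQ⟩
    change ((2 * n : ℕ) : ℕ∞) ≤ sysU (LaurentSeries K) 2 at h
    push_cast at h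
    exact h

end Pool.Agent.Results.MP_25ed17_al.SystemUTwo
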