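import Pool.Agent.Lib.MP_25ed17_al.H5.SU

/-!
A lower bound for the system u-invariants of `K((t))`, `K` a nonreal field.
-/

namespace Pool.Agent.Results.MP_25ed17_al.ThreeBlocks

universe u

/-- There is an anisotropic system `q` of `r` quadratic forms in `n` variables over `F` such
that, for some `m > 0`, the orthogonal sum of `m` copies of `q` vanishes on a subspace of
dimension at least half the dimension `m * n` of its domain. -/
def HasSystem (F : Type u) [Field F] (r n : ℕ) : Prop :=
  ∃ q : QuadraticMap F (Fin n → F) (Fin r → F),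
    (∀ x, q x = 0 → x = 0) ∧
    ∃ m : ℕ, 0 < m ∧
      ∃ W : Submodule F (Fin m → Fin n → F),
        m * n ≤ 2 * Module.finrank F W ∧
        ∀ x ∈ W, ∑ i, q (x i) = 0

/-- The system u-invariant `u_r(F)`. -/
noncomputable def sysU (F : Type u) [Field F] (r : ℕ) : ℕ∞ :=
  ⨆ n : {n : ℕ // HasSystem F r n}, ((n : ℕ) : ℕ∞)

/-- For every field `K` in which `-1` is a sum of squares and all `a, b, c ≤ r` with
`a + b + c = 2 r`: `u_a(K) + u_b(K) + u_c(K) ≤ u_r(K((t)))`. -/
theorem result (K : Type u) [Field K] (hK : IsSumSq (-1 : K)) (r a b c : ℕ) (ha : a ≤ r)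
    (hb : b ≤ r) (hc : c ≤ r) (habc : a + b + c = 2 * r) :
    sysU K a + sysU K b + sysU K c ≤ sysU (LaurentSeries K) r :=
  Lib.MP_25ed17_al.SU.three_blocks K hK r a b c ha hb hc habc

end Pool.Agent.Results.MP_25ed17_al.ThreeBlocks
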