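import Pool.Agent.Lib.MP_25ed17_al.H5.SU
import Pool.Agent.Lib.MP_25ed17_al.Neg.Final
import Pool.Agent.Lib.MP_25ed17_al.Neg.Low
import Pool.Agent.Lib.MP_25ed17_al.Neg.Blocks

/-!
System u-invariants of Laurent series fields.  The inequality `u_r(K((t))) ≤ 2 u_r(K)` fails for
`r = 21` and some algebraic extension `K` of `ℂ((x))`.
-/

namespace Pool.Agent.Results.MP_25ed17_al.TwentyOne

universe u

/-- There is an anisotropic system `q` of `r` quadratic forms in `n` variables over `F` such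
that, for some `m > 0`, the orthogonal sum of `m` copies of `q` vanishes on a subspace of
dimension at least half the dimension `m * n` of its domain. -/
def HasSystem (F : Type u) [Field F] (r n : ℕ) : Prop :=
  ∃ q : QuadraticMap F (Fin n → F) (Fin r → F),
    (∀ x, q x = 0 → x = 0) ∧
    ∃ m : ℕ, 0 < m ∧
      ∃ W : Submodule F (Fin m → Fin n → F),
        m * n ≤ 2 * Module.finrank F W ∧
        ∀ x ∈ W, ∑ i, q (x i) = 0

/-- The system u-invariant `u_r(F)`. -/
noncomputable def sysU (F : Type u) [Field F] (r : ℕ) : ℕ∞ :=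
  ⨆ n : {n : ℕ // HasSystem F r n}, ((n : ℕ) : ℕ∞)

open Lib.MP_25ed17_al Lib.MP_25ed17_al.Neg

theorem exists_field : ∃ K : IntermediateField (LaurentSeries ℂ)
    (AlgebraicClosure (LaurentSeries ℂ)), IsSumSq (-1 : K) ∧
    Lib.MP_25ed17_al.SU.sysU K 14 = 15 ∧ Lib.MP_25ed17_al.SU.sysU K 21 = 22 := by
  have hp : Nat.Prime 2731 := by norm_num
  have hq : Nat.Prime 8191 := by norm_num
  obtain ⟨M, hM, hmax⟩ := exists_maximal (k := LaurentSeries ℂ)
    (Ω := AlgebraicClosure (LaurentSeries ℂ)) hp hq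
  have hcharL : CharZero (LaurentSeries ℂ) :=
    charZero_of_injective_ringHom (HahnSeries.C_injective (Γ := ℤ) (R := ℂ))
  have hchar : CharZero M :=
    charZero_of_injective_ringHom (algebraMap (LaurentSeries ℂ) M).injective
  let f : ℂ →+* M := (algebraMap (LaurentSeries ℂ) M).comp HahnSeries.C
  have hsq : IsSumSq (-1 : M) := isSumSq_neg_one f
  obtain ⟨A, hA⟩ := exists_low ℂ (AlgebraicClosure (LaurentSeries ℂ)) M hM
  have h14 : Lib.MP_25ed17_al.SU.HasSystem M 14 15 := by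
    obtain ⟨q, hq⟩ := exists_quad A (n := 15) (r := 14) (Equiv.refl _) (Equiv.refl _)
    exact (Lib.MP_25ed17_al.SU.hasSystem_iff hsq).2 ⟨q, fun x hx => hA x fun i => by
      have h := hq x i
      rw [Equiv.refl_apply, hx] at h
      exact h.symm⟩
  have h21 : Lib.MP_25ed17_al.SU.HasSystem M 21 22 :=
    Lib.MP_25ed17_al.SU.hasSystem_add hsq h14 (Lib.MP_25ed17_al.SU.hasSystem_self hsq 7)
  have hup : ∀ n, Lib.MP_25ed17_al.SU.HasSystem M 21 n → n ≤ 22 := by
    rintro n ⟨q, hq', -⟩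
    by_contra hn
    obtain ⟨c, hc⟩ := exists_restrict (by omega) q hq'
    obtain ⟨x, hx, hx0⟩ := exists_zero M
      (fun E _ _ _ => finrank_of_maximal hp hq hM hmax E) rfl c
    exact hx (hc x hx0)
  have hup' : ∀ n, Lib.MP_25ed17_al.SU.HasSystem M 14 n → n ≤ 15 := by
    intro n hn
    have := hup _ (Lib.MP_25ed17_al.SU.hasSystem_add hsq hn
      (Lib.MP_25ed17_al.SU.hasSystem_self hsq 7))
    omega
  refine ⟨M, hsq, ?_, ?_⟩
  · exact le_antisymm (iSup_le fun n => by exact_mod_cast hup' n n.2)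
      (by exact_mod_cast Lib.MP_25ed17_al.SU.le_sysU h14)
  · exact le_antisymm (iSup_le fun n => by exact_mod_cast hup n n.2)
      (by exact_mod_cast Lib.MP_25ed17_al.SU.le_sysU h21)

/-- There is an algebraic extension `K` of `ℂ((x))` (so `K` has characteristic `0` and `-1` is a
square in `K`) with `u_14(K) = 15`, `u_21(K) = 22` and `u_21(K((t))) ≥ 45 > 2 u_21(K)`. -/
theorem result : ∃ K : IntermediateField (LaurentSeries ℂ) (AlgebraicClosure (LaurentSeries ℂ)),
    IsSumSq (-1 : K) ∧ sysU K 14 = 15 ∧ sysU K 21 = 22 ∧ 45 ≤ sysU (LaurentSeries K) 21 ∧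
      2 * sysU K 21 < sysU (LaurentSeries K) 21 := by
  obtain ⟨K, hsq, h14, h21⟩ := exists_field
  have h45 : 45 ≤ Lib.MP_25ed17_al.SU.sysU (LaurentSeries K) 21 := by
    have h := Lib.MP_25ed17_al.SU.three_blocks K hsq 21 14 14 14 (by norm_num) (by norm_num)
      (by norm_num) (by norm_num)
    rw [h14] at h
    refine le_trans ?_ h
    norm_num
  refine ⟨K, hsq, h14, h21, h45, ?_⟩
  change 2 * Lib.MP_25ed17_al.SU.sysU K 21 < Lib.MP_25ed17_al.SU.sysU (LaurentSeries K) 21
  rw [h21]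
  refine lt_of_lt_of_le ?_ h45
  exact_mod_cast (by norm_num : 2 * 22 < 45)

end Pool.Agent.Results.MP_25ed17_al.TwentyOne
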